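import Pool.Agent.FCE.Space

set_option autoImplicit false

namespace Pool.Agent.FCE

open Set Cardinal

variable {A : I → Set ℕ}

lemma lind (a : I) : IsLindelof (L a : Set (Sp A)) := by
  induction a using WellFoundedLT.induction with
  | _ a ih =>
    have hfib : IsLindelof ({q : Sp A | q.o = a}) := by
      have : {q : Sp A | q.o = a} = range (fun n : ℕ => (⟨a, n⟩ : Sp A)) := by
        ext q
        constructor
        · intro h
          exact ⟨q.l, by cases q; simp only [mem_setOf_eq] at h; rw [h]⟩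
        · rintro ⟨n, rfl⟩
          rfl
      rw [this]
      exact (Set.countable_range _).isLindelof
    by_cases hP : P a
    · refine isLindelof_of_countable_subcover ?_
      intro ι U hU hcov
      have hm : ∀ m : ℕ, ∃ i, (⟨a, m⟩ : Sp A) ∈ U i := by
        intro m
        exact mem_iUnion.1 (hcov (show a ≤ a from le_refl a))
      choose i hi using hm
      have hb : ∀ m : ℕ, ∃ b, b < a ∧ ∀ x j, b < x → x < a → max j (w A x a) = m →
          (⟨x, j⟩ : Sp A) ∈ U (i m) := fun m => hU (i m) _ (hi m) hP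
      choose b hb hbU using hb
      obtain ⟨c, hc, hcb⟩ := hP (range b) (countable_range b) (by rintro _ ⟨m, rfl⟩; exact hb m)
      obtain ⟨t, ht, htc⟩ := (isLindelof_iff_countable_subcover.1 (ih c hc)) U hU
        (fun q hq => hcov (le_trans hq hc.le))
      refine ⟨t ∪ range i, ht.union (countable_range i), ?_⟩
      intro q hq
      rcases le_or_gt q.o c with h1 | h1
      · exact biUnion_subset_biUnion_left subset_union_left (htc h1)
      · rcases (show q.o ≤ a from hq).lt_or_eq with h2 | h2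
        · refine mem_biUnion (Or.inr ⟨max q.l (w A q.o a), rfl⟩) ?_
          exact hbU _ q.o q.l ((hcb _ ⟨_, rfl⟩).trans_lt h1) h2 rfl
        · refine mem_biUnion (Or.inr ⟨q.l, rfl⟩) ?_
          have := hi q.l
          rw [← h2] at this
          exact this
    · have hex : ∃ s : Set I, s.Countable ∧ s ⊆ Iio a ∧ ∀ b, b < a → ∃ x ∈ s, b < x := by
        unfold P at hP
        push Not at hP
        obtain ⟨s, h1, h2, h3⟩ := hP
        exact ⟨s, h1, h2, h3⟩
      obtain ⟨s, h1, h2, h3⟩ := hex
      have : (L a : Set (Sp A)) = {q | q.o = a} ∪ ⋃ x ∈ s, L x := by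
        ext q
        constructor
        · intro hq
          rcases (show q.o ≤ a from hq).lt_or_eq with h | h
          · obtain ⟨x, hx, hqx⟩ := h3 _ h
            exact Or.inr (mem_biUnion hx hqx.le)
          · exact Or.inl h
        · rintro (h | h)
          · exact le_of_eq h
          · obtain ⟨x, hx, hqx⟩ := mem_iUnion₂.1 h
            exact le_trans hqx (show x < a from h2 hx).le
      rw [this]
      exact hfib.union (h1.isLindelof_biUnion fun x hx => ih x (h2 hx))

/-- Every real function is locally constant. -/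
lemma fiber_open (f : Sp A → ℝ) (hf : Continuous f) (r : ℝ) : IsOpen (f ⁻¹' {r}) := by
  rw [isOpen_def]
  intro p hp hP
  have h : ∀ n : ℕ, ∃ b, b < p.o ∧ ∀ x j, b < x → x < p.o → max j (w A x p.o) = p.l →
      (⟨x, j⟩ : Sp A) ∈ f ⁻¹' (Metric.ball r (1 / ((n : ℝ) + 1))) := by
    intro n
    have hop : IsOpen (f ⁻¹' (Metric.ball r (1 / ((n : ℝ) + 1)))) :=
      Metric.isOpen_ball.preimage hf
    refine hop p ?_ hP
    have : f p = r := hp
    rw [mem_preimage, this]
    exact Metric.mem_ball_self (by positivity)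
  choose b hb hbU using h
  obtain ⟨c, hc, hcb⟩ := hP (range b) (countable_range b) (by rintro _ ⟨m, rfl⟩; exact hb m)
  refine ⟨c, hc, fun x j hx hx2 hm => ?_⟩
  rw [mem_preimage, mem_singleton_iff]
  by_contra hne
  have hpos : 0 < dist (f ⟨x, j⟩) r := dist_pos.2 hne
  obtain ⟨n, hn⟩ := exists_nat_one_div_lt hpos
  have := hbU n x j ((hcb _ ⟨n, rfl⟩).trans_lt hx) hx2 hm
  rw [mem_preimage, Metric.mem_ball] at this
  linarith

lemma image_countable (f : Sp A → ℝ) (hf : Continuous f) (a : I) :
    (f '' (L a : Set (Sp A))).Countable := by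
  obtain ⟨t, ht, htc⟩ := (isLindelof_iff_countable_subcover.1 (lind (A := A) a))
    (fun r : ℝ => f ⁻¹' {r}) (fun r => fiber_open f hf r)
    (fun q _ => mem_iUnion.2 ⟨f q, rfl⟩)
  refine ht.mono ?_
  rintro _ ⟨q, hq, rfl⟩
  obtain ⟨r, hr, hqr⟩ := mem_iUnion₂.1 (htc hq)
  have : f q = r := hqr
  rw [this]; exact hr

/-- Disjoint closed sets, one of which is bounded, are separated. -/
lemma sep_bdd (H K : Set (Sp A)) (hH : IsClosed H) (hK : IsClosed K) (hd : Disjoint H K) (a : I)
    (ha : H ⊆ L a) : SeparatedNhds H K := by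
  have : LindelofSpace (L a : Set (Sp A)) := isLindelof_iff_lindelofSpace.1 (lind a)
  have hemb : Topology.IsOpenEmbedding (Subtype.val : ↥(L a : Set (Sp A)) → Sp A) :=
    (L_open a).isOpenEmbedding_subtypeVal
  have : RegularSpace ↥(L a : Set (Sp A)) := hemb.isInducing.regularSpace
  obtain ⟨U, V, hU, hV, hHU, hKV, hUV⟩ := NormalSpace.normal
    ((Subtype.val : ↥(L a : Set (Sp A)) → Sp A) ⁻¹' H) (Subtype.val ⁻¹' K)
    (hH.preimage continuous_subtype_val) (hK.preimage continuous_subtype_val)
    (hd.preimage _)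
  refine ⟨Subtype.val '' U, Subtype.val '' V ∪ (L a)ᶜ, hemb.isOpenMap U hU,
    (hemb.isOpenMap V hV).union (L_compl_open a), ?_, ?_, ?_⟩
  · intro q hq
    exact ⟨⟨q, ha hq⟩, hHU hq, rfl⟩
  · intro q hq
    by_cases h : q ∈ (L a : Set (Sp A))
    · exact Or.inl ⟨⟨q, h⟩, hKV hq, rfl⟩
    · exact Or.inr h
  · rw [Set.disjoint_left]
    rintro _ ⟨u, hu, rfl⟩ (⟨v, hv, hvu⟩ | h)
    · have : v = u := Subtype.ext hvu
      rw [this] at hv
      exact Set.disjoint_left.1 hUV hu hv
    · exact h u.2

end Pool.Agent.FCE
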