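import Pool.Agent.FCE.Lind

set_option autoImplicit false

namespace Pool.Agent.FCE

open Set Cardinal

variable {A : I → Set ℕ}

lemma exists_rec (G : I → I) (a0 : I) : ∃ s : J → I, ∀ j, a0 < s j ∧ ∀ i, i < j → G (s i) < s j := by
  classical
  have hc : ∀ (j : J) (f : (i : J) → i < j → I),
      ({a0} ∪ range (fun i : Iio j => G (f i.1 i.2)) : Set I).Countable := by
    intro j f
    have : Countable (Iio j) := (J_count j).to_subtype
    exact (countable_singleton a0).union (countable_range _)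
  let F : (j : J) → ((i : J) → i < j → I) → I := fun j f => (I_bdd_count _ (hc j f)).choose
  refine ⟨WellFounded.fix (wellFounded_lt (α := J)) F, fun j => ?_⟩
  have hs := (I_bdd_count _ (hc j
    (fun i _ => WellFounded.fix (wellFounded_lt (α := J)) F i))).choose_spec
  have hj : WellFounded.fix (wellFounded_lt (α := J)) F j =
      (I_bdd_count _ (hc j
        (fun i _ => WellFounded.fix (wellFounded_lt (α := J)) F i))).choose := by
    rw [WellFounded.fix_eq]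
  rw [← hj] at hs
  exact ⟨hs a0 (Or.inl rfl), fun i hi => hs _ (Or.inr ⟨⟨i, hi⟩, rfl⟩)⟩

/-- Closure points of uncountable cofinality. -/
lemma club (g : I → I) (a0 : I) : ∃ d, a0 < d ∧ P d ∧ ∀ b, b < d → g b < d := by
  have hG : ∀ a : I, ∃ c, a < c ∧ ∀ b, b ≤ a → g b < c := by
    intro a
    have h1 : #(g '' Iic a ∪ {a} : Set I) ≤ Cardinal.aleph 1 := by
      refine (Cardinal.mk_union_le _ _).trans ?_
      refine (add_le_add (Cardinal.mk_image_le.trans (?_ : #(Iic a) ≤ Cardinal.aleph 1))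
        (Cardinal.mk_singleton _).le).trans ?_
      · rw [← Set.Iio_union_right]
        refine (Cardinal.mk_union_le _ _).trans ?_
        refine (add_le_add (I_small _) (Cardinal.mk_singleton _).le).trans ?_
        rw [Cardinal.add_one_eq (Cardinal.aleph0_le_aleph 1)]
      · rw [Cardinal.add_one_eq (Cardinal.aleph0_le_aleph 1)]
    obtain ⟨c, hc⟩ := I_bdd _ h1
    exact ⟨c, hc a (Or.inr rfl), fun b hb => hc _ (Or.inl ⟨b, hb, rfl⟩)⟩
  choose G hG1 hG2 using hG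
  obtain ⟨s, hs⟩ := exists_rec G a0
  have hr : #(range s) ≤ Cardinal.aleph 1 := by
    rw [← mk_J]; exact Cardinal.mk_range_le
  obtain ⟨c, hc⟩ := I_bdd _ hr
  have hne : {d : I | ∀ j, s j < d}.Nonempty := ⟨c, fun j => hc _ ⟨j, rfl⟩⟩
  set d := WellFounded.min (wellFounded_lt (α := I)) {d : I | ∀ j, s j < d} hne with hd
  have hd1 : ∀ j, s j < d := WellFounded.min_mem (wellFounded_lt (α := I)) _ hne
  have hd2 : ∀ b, b < d → ∃ j, b ≤ s j := by
    intro b hb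
    by_contra hcon
    push Not at hcon
    exact WellFounded.not_lt_min (wellFounded_lt (α := I)) {d : I | ∀ j, s j < d} hcon hb
  have hsucc : ∀ j : J, ∃ k, j < k := by
    intro j
    obtain ⟨k, hk⟩ := J_bdd {j} (countable_singleton j)
    exact ⟨k, hk j rfl⟩
  have hJ : Nonempty J := by
    obtain ⟨k, -⟩ := J_bdd ∅ countable_empty
    exact ⟨k⟩
  obtain ⟨j0⟩ := hJ
  refine ⟨d, (hs j0).1.trans (hd1 j0), ?_, ?_⟩
  · intro t ht htd
    have : ∀ x : I, ∃ j, x ∈ t → x ≤ s j := by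
      intro x
      by_cases hx : x ∈ t
      · obtain ⟨j, hj⟩ := hd2 x (htd hx)
        exact ⟨j, fun _ => hj⟩
      · exact ⟨j0, fun h => absurd h hx⟩
    choose k hk using this
    obtain ⟨j, hj⟩ := J_bdd (k '' t) (ht.image k)
    refine ⟨s j, hd1 j, fun x hx => (hk x hx).trans ?_⟩
    have h1 := hj _ ⟨x, hx, rfl⟩
    have h2 := (hs j).2 _ h1
    exact (hG1 (s (k x))).le.trans h2.le
  · intro b hb
    obtain ⟨j, hj⟩ := hd2 b hb
    obtain ⟨k, hk⟩ := hsucc j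
    exact ((hG2 (s j) b hj).trans ((hs k).2 j hk)).trans (hd1 k)

/-- Unbounded sets. -/
def Ub (H : Set (Sp A)) : Prop := ∀ a, ∃ p ∈ H, a < p.o

/-- A closed set which accumulates below `d` contains a point over `d`. -/
lemma acc (H : Set (Sp A)) (hH : IsClosed H) (d : I) (hP : P d)
    (h : ∀ b, b < d → ∃ p ∈ H, b < p.o ∧ p.o < d) : ∃ m, (⟨d, m⟩ : Sp A) ∈ H := by
  by_contra hcon
  push Not at hcon
  have h2 : ∀ m : ℕ, ∃ b, b < d ∧ ∀ x j, b < x → x < d → max j (w A x d) = m →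
      (⟨x, j⟩ : Sp A) ∈ Hᶜ := fun m => hH.isOpen_compl ⟨d, m⟩ (hcon m) hP
  choose b hb hbU using h2
  obtain ⟨c, hc, hcb⟩ := hP (range b) (countable_range b) (by rintro _ ⟨m, rfl⟩; exact hb m)
  obtain ⟨p, hp, h3, h4⟩ := h c hc
  exact hbU (max p.l (w A p.o d)) p.o p.l ((hcb _ ⟨_, rfl⟩).trans_lt h3) h4 rfl hp

lemma key_claim (hA : Chain A) (E : Set I) (hE : ∀ a, ∃ x ∈ E, a < x) (q : ℕ) :
    ∃ d, P d ∧ ∀ b, b < d → ∃ x ∈ E, b < x ∧ x < d ∧ q ≤ w A x d := by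
  classical
  let N : Set ℕ := {n | ∀ c, ∃ x ∈ E, c < x ∧ n ∈ A x}
  have h1 : ∀ n : ℕ, ∃ c, n ∉ N → ∀ x ∈ E, c < x → n ∉ A x := by
    intro n
    by_cases hn : n ∈ N
    · obtain ⟨x, -, -⟩ := hE ((I_bdd_count ∅ countable_empty).choose)
      exact ⟨x, fun h => absurd hn h⟩
    · have : ∃ c, ∀ x ∈ E, c < x → n ∉ A x := by
        by_contra hcon
        push Not at hcon
        exact hn fun c => by
          obtain ⟨x, h1, h2, h3⟩ := hcon c
          exact ⟨x, h1, h2, h3⟩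
      obtain ⟨c, hc⟩ := this
      exact ⟨c, fun _ => hc⟩
  choose c hc using h1
  obtain ⟨a0, ha0⟩ := I_bdd_count (range c) (countable_range c)
  have h2 : ∀ (b : I) (n : ℕ), ∃ x, n ∈ N → x ∈ E ∧ b < x ∧ n ∈ A x := by
    intro b n
    by_cases hn : n ∈ N
    · obtain ⟨x, h⟩ := hn b
      exact ⟨x, fun _ => h⟩
    · exact ⟨b, fun h => absurd h hn⟩
  choose al hal using h2
  have h3 : ∀ b : I, ∃ g, ∀ n, al b n < g := by
    intro b
    obtain ⟨g, hg⟩ := I_bdd_count (range (al b)) (countable_range _)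
    exact ⟨g, fun n => hg _ ⟨n, rfl⟩⟩
  choose g hg using h3
  obtain ⟨d, hd0, hPd, hdg⟩ := club g a0
  refine ⟨d, hPd, fun b hb => ?_⟩
  obtain ⟨x', hx', hdx⟩ := hE d
  have hinf := (hA d x' hdx).2
  obtain ⟨n, hn, hqn⟩ := hinf.exists_gt q
  have hnN : n ∈ N := by
    by_contra hnN
    exact hc n hnN x' hx' (((ha0 _ ⟨n, rfl⟩).trans hd0).trans hdx) hn.1
  obtain ⟨h4, h5, h6⟩ := hal b n hnN
  have h7 : al b n < d := (hg b n).trans (hdg b hb)
  refine ⟨al b n, h4, h5, h7, ?_⟩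
  by_contra hlt
  push Not at hlt
  exact hn.2 (w_spec hA h6 d h7.le (hlt.le.trans hqn.le))

/-- Two unbounded closed sets meet. -/
lemma meet (hA : Chain A) (H K : Set (Sp A)) (hH : IsClosed H) (hK : IsClosed K) (uH : Ub H)
    (uK : Ub K) : (H ∩ K).Nonempty := by
  classical
  -- closure points
  choose pH hpH hpH2 using uH
  choose pK hpK hpK2 using uK
  have hcl : ∀ a0 : I, ∃ d, a0 < d ∧ (∃ h, (⟨d, h⟩ : Sp A) ∈ H) ∧ ∃ k, (⟨d, k⟩ : Sp A) ∈ K := by
    intro a0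
    obtain ⟨d, hd0, hPd, hdg⟩ := club (fun b => max (pH b).o (pK b).o) a0
    refine ⟨d, hd0, acc H hH d hPd ?_, acc K hK d hPd ?_⟩
    · intro b hb
      exact ⟨pH b, hpH b, hpH2 b, (le_max_left _ _).trans_lt (hdg b hb)⟩
    · intro b hb
      exact ⟨pK b, hpK b, hpK2 b, (le_max_right _ _).trans_lt (hdg b hb)⟩
  have hpig : ∃ h k : ℕ, ∀ a, ∃ x ∈ {d : I | (⟨d, h⟩ : Sp A) ∈ H ∧ (⟨d, k⟩ : Sp A) ∈ K},
      a < x := by
    by_contra hcon
    push Not at hcon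
    choose e he using hcon
    obtain ⟨a0, ha0⟩ := I_bdd_count (range (fun z : ℕ × ℕ => e z.1 z.2)) (countable_range _)
    obtain ⟨d, hd0, ⟨h, hh⟩, ⟨k, hk⟩⟩ := hcl a0
    exact absurd (he h k d ⟨hh, hk⟩) (not_le.2 ((ha0 _ ⟨(h, k), rfl⟩).trans hd0))
  obtain ⟨h, k, hE⟩ := hpig
  obtain ⟨d, hPd, hd⟩ := key_claim hA _ hE (max h k)
  have hm : ∃ m, max h k ≤ m ∧ ∀ b, b < d → ∃ x,
      ((⟨x, h⟩ : Sp A) ∈ H ∧ (⟨x, k⟩ : Sp A) ∈ K) ∧ b < x ∧ x < d ∧ w A x d = m := by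
    by_contra hcon
    push Not at hcon
    have h1 : ∀ m : ℕ, ∃ b, b < d ∧ (max h k ≤ m → ∀ x,
        ((⟨x, h⟩ : Sp A) ∈ H ∧ (⟨x, k⟩ : Sp A) ∈ K) → b < x → x < d → w A x d ≠ m) := by
      intro m
      by_cases hm : max h k ≤ m
      · obtain ⟨b, hb, h2⟩ := hcon m hm
        exact ⟨b, hb, fun _ => h2⟩
      · obtain ⟨b, hb, -⟩ := hPd ∅ countable_empty (empty_subset _)
        exact ⟨b, hb, fun h2 => absurd h2 hm⟩
    choose b hb hb2 using h1
    obtain ⟨c, hc, hcb⟩ := hPd (range b) (countable_range b) (by rintro _ ⟨m, rfl⟩; exact hb m)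
    obtain ⟨x, hx, h3, h4, h5⟩ := hd c hc
    exact hb2 (w A x d) h5 x hx ((hcb _ ⟨_, rfl⟩).trans_lt h3) h4 rfl
  obtain ⟨m, hm1, hm2⟩ := hm
  refine ⟨⟨d, m⟩, ?_, ?_⟩
  · by_contra hnot
    obtain ⟨b, hb, hU⟩ := hH.isOpen_compl ⟨d, m⟩ hnot hPd
    obtain ⟨x, hx, h3, h4, h5⟩ := hm2 b hb
    refine hU x h h3 h4 ?_ hx.1
    simp only
    rw [h5]
    exact max_eq_right ((le_max_left _ _).trans hm1)
  · by_contra hnot
    obtain ⟨b, hb, hU⟩ := hK.isOpen_compl ⟨d, m⟩ hnot hPd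
    obtain ⟨x, hx, h3, h4, h5⟩ := hm2 b hb
    refine hU x k h3 h4 ?_ hx.2
    simp only
    rw [h5]
    exact max_eq_right ((le_max_right _ _).trans hm1)

lemma normal (hA : Chain A) : NormalSpace (Sp A) where
  normal := by
    intro H K hH hK hd
    by_cases uH : Ub H
    · by_cases uK : Ub K
      · exact absurd (meet hA H K hH hK uH uK) (by rw [hd.inter_eq]; exact not_nonempty_empty)
      · unfold Ub at uK
        push Not at uK
        obtain ⟨a, ha⟩ := uK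
        exact (sep_bdd K H hK hH hd.symm a (fun p hp => ha p hp)).symm
    · unfold Ub at uH
      push Not at uH
      obtain ⟨a, ha⟩ := uH
      exact sep_bdd H K hH hK hd a (fun p hp => ha p hp)

lemma fcount (hA : Chain A) (f : Sp A → ℝ) (hf : Continuous f) : (range f).Countable := by
  have h1 : ∀ z : ℚ × ℚ, ∃ a : I, z.1 < z.2 →
      ((∀ p : Sp A, f p ≤ z.1 → p.o ≤ a) ∨ (∀ p : Sp A, (z.2 : ℝ) ≤ f p → p.o ≤ a)) := by
    rintro ⟨r, r'⟩
    by_cases hr : r < r'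
    · by_contra hcon
      push Not at hcon
      have hm := meet hA (f ⁻¹' Iic (r : ℝ)) (f ⁻¹' Ici (r' : ℝ))
        (isClosed_Iic.preimage hf) (isClosed_Ici.preimage hf)
        (fun a => by
          obtain ⟨-, ⟨p, hp, hpa⟩, -⟩ := hcon a
          exact ⟨p, hp, hpa⟩)
        (fun a => by
          obtain ⟨-, -, ⟨p, hp, hpa⟩⟩ := hcon a
          exact ⟨p, hp, hpa⟩)
      obtain ⟨p, hp1, hp2⟩ := hm
      have h2 : (r' : ℝ) ≤ r := le_trans hp2 hp1
      have h3 : (r : ℝ) < r' := by exact_mod_cast hr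
      linarith
    · obtain ⟨a, -⟩ := I_bdd_count ∅ countable_empty
      exact ⟨a, fun h => absurd h hr⟩
  choose e he using h1
  obtain ⟨a, ha⟩ := I_bdd_count (range e) (countable_range e)
  have hconst : ∀ p q : Sp A, a < p.o → a < q.o → ¬ f p < f q := by
    intro p q hp hq hlt
    obtain ⟨r, hr1, hr2⟩ := exists_rat_btwn hlt
    obtain ⟨r', hr'1, hr'2⟩ := exists_rat_btwn hr2
    have hrr : r < r' := by exact_mod_cast hr'1
    rcases he (r, r') hrr with h | h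
    · have := h p hr1.le
      exact absurd (hp.trans_le this) (not_lt.2 (ha _ ⟨_, rfl⟩).le)
    · have := h q hr'2.le
      exact absurd (hq.trans_le this) (not_lt.2 (ha _ ⟨_, rfl⟩).le)
  obtain ⟨b, hb⟩ := I_bdd_count {a} (countable_singleton a)
  refine ((image_countable f hf a).union (countable_singleton (f ⟨b, 0⟩))).mono ?_
  rintro _ ⟨p, rfl⟩
  by_cases h : p.o ≤ a
  · exact Or.inl ⟨p, h, rfl⟩
  · right
    rw [mem_singleton_iff]
    have h2 : a < (⟨b, 0⟩ : Sp A).o := hb a rfl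
    rcases lt_trichotomy (f p) (f ⟨b, 0⟩) with h3 | h3 | h3
    · exact absurd h3 (hconst _ _ (not_le.1 h) h2)
    · exact h3
    · exact absurd h3 (hconst _ _ h2 (not_le.1 h))

/-- The closed sets. -/
def Fs (A : I → Set ℕ) (n : ℕ) : Set (Sp A) := {p | n ∈ A p.o ∨ n < p.l}

lemma Fs_closed (hA : Chain A) (n : ℕ) : IsClosed (Fs A n) := by
  constructor
  rw [isOpen_def]
  intro p hp hP
  obtain ⟨b, hb, -⟩ := hP ∅ countable_empty (empty_subset _)
  refine ⟨b, hb, fun x j _ hx2 hm hmem => ?_⟩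
  have h1 : n ∉ A p.o := fun h => hp (Or.inl h)
  have h2 : ¬ n < p.l := fun h => hp (Or.inr h)
  push Not at h2
  rcases hmem with h3 | h3
  · exact h1 (w_spec hA h3 p.o hx2.le (((le_max_right j _).trans hm.le).trans h2))
  · exact absurd (h3.trans_le ((le_max_left j (w A x p.o)).trans hm.le)) (not_lt.2 h2)

lemma not_dense (hA : Chain A) (D : Set (Sp A)) (hD : D.Countable) :
    ∃ S : Set ℕ, (⋂ n ∈ S, Fs A n).Nonempty ∧ D ∩ ⋂ n ∈ S, Fs A n = ∅ := by
  obtain ⟨b, hb⟩ := I_bdd_count (Sp.o '' D) (hD.image _)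
  refine ⟨A b, ⟨⟨b, 0⟩, mem_iInter₂.2 fun n hn => Or.inl hn⟩, ?_⟩
  rw [Set.eq_empty_iff_forall_notMem]
  rintro p ⟨hp, hpF⟩
  obtain ⟨n, hn, hnl⟩ := (hA p.o b (hb _ ⟨p, hp, rfl⟩)).2.exists_gt p.l
  rcases mem_iInter₂.1 hpF n hn.1 with h | h
  · exact hn.2 h
  · exact lt_asymm h hnl

end Pool.Agent.FCE
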