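import Mathlib

set_option autoImplicit false

namespace Pool.Agent.FCE

open Set Cardinal

/-- The least uncountable well ordered set. -/
abbrev J : Type := (Cardinal.aleph 1).ord.ToType

/-- The well ordered set of order type `ω₂`. -/
abbrev I : Type := (Cardinal.aleph 2).ord.ToType

lemma mk_J : #J = Cardinal.aleph 1 := Cardinal.mk_ord_toType _

lemma mk_I : #I = Cardinal.aleph 2 := Cardinal.mk_ord_toType _

lemma J_count (j : J) : (Iio j).Countable := by
  have h : #(Iio j) < #J := Cardinal.mk_Iio_lt j (by rw [mk_J]; simp)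
  rw [mk_J] at h
  have h2 : #(Iio j) ≤ ℵ₀ := by
    rw [← Order.lt_succ_iff, ← Cardinal.aleph_zero, ← Cardinal.aleph_succ]
    simpa using h
  exact Cardinal.le_aleph0_iff_set_countable.1 h2

lemma I_small (a : I) : #(Iio a) ≤ Cardinal.aleph 1 := by
  have h : #(Iio a) < #I := Cardinal.mk_Iio_lt a (by rw [mk_I]; simp)
  rw [mk_I] at h
  rw [← Order.lt_succ_iff, ← Cardinal.aleph_succ]
  have : Order.succ (1 : Ordinal) = 2 := by
    rw [← one_add_one_eq_two]; rfl
  rw [this]; exact h

lemma J_uncount : ¬ (univ : Set J).Countable := by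
  intro h
  have h2 := Cardinal.le_aleph0_iff_set_countable.2 h
  rw [Cardinal.mk_univ, mk_J] at h2
  exact absurd h2 (not_le.2 Cardinal.aleph0_lt_aleph_one)

lemma J_bdd (s : Set J) (hs : s.Countable) : ∃ j, ∀ x ∈ s, x < j := by
  by_contra hcon
  push Not at hcon
  apply J_uncount
  have : (univ : Set J) ⊆ ⋃ x ∈ s, Iic x := by
    intro j _
    obtain ⟨x, hx, hjx⟩ := hcon j
    exact mem_biUnion hx hjx
  refine Set.Countable.mono this (hs.biUnion fun x _ => ?_)
  rw [← Set.Iio_union_right]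
  exact (J_count x).union (countable_singleton x)

lemma I_bdd (s : Set I) (hs : #s ≤ Cardinal.aleph 1) : ∃ b, ∀ x ∈ s, x < b := by
  by_contra hcon
  push Not at hcon
  have hcov : (univ : Set I) ⊆ ⋃ x ∈ s, Iic x := by
    intro j _
    obtain ⟨x, hx, hjx⟩ := hcon j
    exact mem_biUnion hx hjx
  have h1 : #(⋃ x ∈ s, Iic x : Set I) ≤ Cardinal.aleph 1 := by
    have hx : ∀ x : s, #(Iic (x : I)) ≤ Cardinal.aleph 1 := by
      intro x
      rw [← Set.Iio_union_right]
      refine (Cardinal.mk_union_le _ _).trans ?_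
      refine (add_le_add (I_small _) (Cardinal.mk_singleton _).le).trans ?_
      rw [Cardinal.add_one_eq (Cardinal.aleph0_le_aleph 1)]
    refine (Cardinal.mk_biUnion_le _ _).trans ?_
    refine (mul_le_mul' hs (ciSup_le' hx)).trans ?_
    rw [Cardinal.mul_eq_self (Cardinal.aleph0_le_aleph 1)]
  have h2 := (Cardinal.mk_le_mk_of_subset hcov).trans h1
  rw [Cardinal.mk_univ, mk_I] at h2
  exact absurd h2 (not_le.2 (Cardinal.aleph_lt_aleph.2 (by norm_num)))

lemma I_bdd_count (s : Set I) (hs : s.Countable) : ∃ b, ∀ x ∈ s, x < b :=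
  I_bdd s ((Cardinal.le_aleph0_iff_set_countable.2 hs).trans
    (Cardinal.aleph0_lt_aleph_one.le))

lemma I_inj (a : I) : ∃ φ : I → J, InjOn φ (Iio a) := by
  have h : #(Iio a) ≤ #J := by rw [mk_J]; exact I_small a
  obtain ⟨f⟩ := h
  classical
  obtain ⟨j0⟩ : Nonempty J := by
    by_contra hne
    rw [not_nonempty_iff] at hne
    exact J_uncount (Set.countable_univ)
  refine ⟨fun x => if hx : x ∈ Iio a then f ⟨x, hx⟩ else j0, ?_⟩
  intro x hx y hy hxy
  simp only [hx, hy, dif_pos] at hxy
  have := f.injective hxy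
  exact congrArg Subtype.val this

end Pool.Agent.FCE
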