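import Pool.Agent.FCE.Walk

set_option autoImplicit false

namespace Pool.Agent.FCE

open Set Cardinal

/-- The underlying set of the example. -/
structure Sp (A : I → Set ℕ) : Type where
  /-- the ordinal coordinate -/
  o : I
  /-- the level -/
  l : ℕ

variable {A : I → Set ℕ}

/-- The defining property of open sets of the example. -/
def Op (A : I → Set ℕ) (U : Set (Sp A)) : Prop :=
  ∀ p ∈ U, P p.o → ∃ b, b < p.o ∧ ∀ x j, b < x → x < p.o → max j (w A x p.o) = p.l →
    (⟨x, j⟩ : Sp A) ∈ U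

instance topSp (A : I → Set ℕ) : TopologicalSpace (Sp A) where
  IsOpen := Op A
  isOpen_univ := by
    intro p _ hP
    obtain ⟨b, hb, -⟩ := hP ∅ countable_empty (empty_subset _)
    exact ⟨b, hb, fun _ _ _ _ _ => mem_univ _⟩
  isOpen_inter := by
    intro U V hU hV p hp hP
    obtain ⟨b1, hb1, h1⟩ := hU p hp.1 hP
    obtain ⟨b2, hb2, h2⟩ := hV p hp.2 hP
    refine ⟨max b1 b2, max_lt hb1 hb2, fun x j hx hx2 hm => ?_⟩
    exact ⟨h1 x j ((le_max_left _ _).trans_lt hx) hx2 hm,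
      h2 x j ((le_max_right _ _).trans_lt hx) hx2 hm⟩
  isOpen_sUnion := by
    intro S hS p hp hP
    obtain ⟨U, hU, hpU⟩ := hp
    obtain ⟨b, hb, h⟩ := hS U hU p hpU hP
    exact ⟨b, hb, fun x j hx hx2 hm => ⟨U, hU, h x j hx hx2 hm⟩⟩

lemma isOpen_def (U : Set (Sp A)) : IsOpen U ↔ Op A U := Iff.rfl

/-- The basic neighbourhood. -/
def Nb (b : I) (p : Sp A) : Set (Sp A) :=
  {q | q = p ∨ (b < q.o ∧ q.o < p.o ∧ max q.l (w A q.o p.o) = p.l)}

lemma self_mem_Nb (b : I) (p : Sp A) : p ∈ Nb b p := Or.inl rfl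

lemma Nb_open (b : I) (p : Sp A) (hP : P p.o) (hb : b < p.o) : IsOpen (Nb b p) := by
  rw [isOpen_def]
  intro q hq hPq
  rcases hq with rfl | ⟨h1, h2, h3⟩
  · exact ⟨b, hb, fun x j hx hx2 hm => Or.inr ⟨hx, hx2, hm⟩⟩
  · obtain ⟨b1, hb1, hc⟩ := w_coh A hPq p.o h2.le
    refine ⟨max b b1, max_lt h1 hb1, fun x j hx hx2 hm => Or.inr ⟨?_, hx2.trans h2, ?_⟩⟩
    · exact (le_max_left _ _).trans_lt hx
    · have hx1 := (le_max_right _ _).trans_lt hx
      simp only
      rw [hc x hx1 hx2, ← max_assoc, hm, h3]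

/-- Initial segments. -/
def L (a : I) : Set (Sp A) := {q | q.o ≤ a}

lemma L_open (a : I) : IsOpen (L a : Set (Sp A)) := by
  rw [isOpen_def]
  intro q hq hP
  obtain ⟨b, hb, -⟩ := hP ∅ countable_empty (empty_subset _)
  exact ⟨b, hb, fun x j _ hx _ => le_trans hx.le hq⟩

lemma L_compl_open (a : I) : IsOpen ((L a : Set (Sp A))ᶜ) := by
  rw [isOpen_def]
  intro q hq _
  have : a < q.o := not_le.1 hq
  exact ⟨a, this, fun x j hx _ _ => not_le.2 hx⟩

lemma L_closed (a : I) : IsClosed (L a : Set (Sp A)) := ⟨L_compl_open a⟩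

lemma single_open (p : Sp A) (hP : ¬ P p.o) : IsOpen ({p} : Set (Sp A)) := by
  rw [isOpen_def]
  intro q hq hPq
  rw [mem_singleton_iff] at hq
  rw [hq] at hPq
  exact absurd hPq hP

lemma Nb_closed (b : I) (p : Sp A) : IsClosed (Nb b p) := by
  constructor
  rw [isOpen_def]
  intro q hq hPq
  have hqp : q ≠ p := fun h => hq (Or.inl h)
  rcases lt_trichotomy q.o p.o with h | h | h
  · rcases le_or_gt q.o b with hb | hb
    · obtain ⟨b1, hb1, -⟩ := hPq ∅ countable_empty (empty_subset _)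
      refine ⟨b1, hb1, fun x j _ hx _ hmem => ?_⟩
      rcases hmem with h0 | ⟨h1, -, -⟩
      · have : x = p.o := congrArg Sp.o h0
        rw [this] at hx
        exact absurd hx (not_lt.2 h.le)
      · exact absurd h1 (not_lt.2 (hx.le.trans hb))
    · obtain ⟨b1, hb1, hc⟩ := w_coh A hPq p.o h.le
      refine ⟨b1, hb1, fun x j hx hx2 hm hmem => ?_⟩
      rcases hmem with h0 | ⟨h1, h2, h3⟩
      · have : x = p.o := congrArg Sp.o h0
        rw [this] at hx2
        exact absurd hx2 (not_lt.2 h.le)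
      · simp only at h3
        rw [hc x hx hx2, ← max_assoc, hm] at h3
        exact hq (Or.inr ⟨hb, h, h3⟩)
  · obtain ⟨b1, hb1, -⟩ := hPq ∅ countable_empty (empty_subset _)
    refine ⟨b1, hb1, fun x j _ hx hm hmem => ?_⟩
    rcases hmem with h0 | ⟨h1, h2, h3⟩
    · have : x = p.o := congrArg Sp.o h0
      rw [this, h] at hx
      exact lt_irrefl _ hx
    · simp only at h3
      rw [h] at hm
      apply hqp
      have hl : q.l = p.l := by rw [← hm, ← h3]
      cases q; cases p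
      simp only at h hl
      rw [h, hl]
  · refine ⟨p.o, h, fun x j hx _ _ hmem => ?_⟩
    rcases hmem with h0 | ⟨-, h2, -⟩
    · have : x = p.o := congrArg Sp.o h0
      rw [this] at hx
      exact lt_irrefl _ hx
    · exact lt_asymm hx h2

instance : T2Space (Sp A) where
  t2 := by
    have key : ∀ p q : Sp A, p ≠ q → p.o ≤ q.o → ∃ u v : Set (Sp A), IsOpen u ∧ IsOpen v ∧
        p ∈ u ∧ q ∈ v ∧ Disjoint u v := by
      intro p q hpq hle
      rcases hle.lt_or_eq with h | h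
      · refine ⟨L p.o, (L p.o)ᶜ, L_open _, L_compl_open _, (show p.o ≤ p.o from le_refl _), not_le.2 h,
          disjoint_compl_right⟩
      · by_cases hP : P p.o
        · obtain ⟨b, hb, -⟩ := hP ∅ countable_empty (empty_subset _)
          refine ⟨Nb b p, (Nb b p)ᶜ, Nb_open b p hP hb, (Nb_closed b p).isOpen_compl,
            self_mem_Nb b p, ?_, disjoint_compl_right⟩
          rintro (h0 | ⟨-, h2, -⟩)
          · exact hpq h0.symm
          · rw [h] at h2; exact lt_irrefl _ h2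
        · refine ⟨{p}, {q}, single_open p hP, single_open q (by rw [← h]; exact hP), rfl, rfl, ?_⟩
          simpa using hpq
    intro p q hpq
    rcases le_total p.o q.o with h | h
    · exact key p q hpq h
    · obtain ⟨u, v, hu, hv, hqu, hpv, hd⟩ := key q p hpq.symm h
      exact ⟨v, u, hv, hu, hpv, hqu, hd.symm⟩

/-- Clopen neighbourhoods. -/
lemma exists_clopen (U : Set (Sp A)) (hU : IsOpen U) (p : Sp A) (hp : p ∈ U) :
    ∃ V : Set (Sp A), IsClopen V ∧ p ∈ V ∧ V ⊆ U := by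
  by_cases hP : P p.o
  · obtain ⟨b, hb, h⟩ := hU p hp hP
    refine ⟨Nb b p, ⟨Nb_closed b p, Nb_open b p hP hb⟩, self_mem_Nb b p, ?_⟩
    rintro q (rfl | ⟨h1, h2, h3⟩)
    · exact hp
    · exact h q.o q.l h1 h2 h3
  · exact ⟨{p}, ⟨isClosed_singleton, single_open p hP⟩, rfl, by simpa using hp⟩

instance : RegularSpace (Sp A) := by
  refine RegularSpace.of_exists_mem_nhds_isClosed_subset ?_
  intro p s hs
  obtain ⟨U, hUs, hU, hpU⟩ := mem_nhds_iff.1 hs
  obtain ⟨V, hV, hpV, hVU⟩ := exists_clopen U hU p hpU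
  exact ⟨V, hV.isOpen.mem_nhds hpV, hV.isClosed, hVU.trans hUs⟩

end Pool.Agent.FCE
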