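import Pool.Agent.FCE.Order

set_option autoImplicit false

namespace Pool.Agent.FCE

open Set Cardinal

/-- Countable subsets of the initial segment below `a` are bounded below `a`. -/
def P (a : I) : Prop := ∀ s : Set I, s.Countable → s ⊆ Iio a → ∃ b, b < a ∧ ∀ x ∈ s, x ≤ b

/-- A chain which is strictly increasing modulo finite sets. -/
def Chain (A : I → Set ℕ) : Prop := ∀ a b, a < b → (A a \ A b).Finite ∧ (A b \ A a).Infinite

open Classical in
/-- The least bound of the elements of `A x` outside `A y`. -/
noncomputable def rho (A : I → Set ℕ) (x y : I) : ℕ :=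
  if h : (A x \ A y).Finite then h.toFinset.sup (fun n => n + 1) else 0

lemma rho_spec {A : I → Set ℕ} (hA : Chain A) {x y : I} (h : x < y) {n : ℕ} (hn : n ∈ A x)
    (hr : rho A x y ≤ n) : n ∈ A y := by
  by_contra hny
  have hf := (hA x y h).1
  have hmem : n ∈ hf.toFinset := by
    rw [Set.Finite.mem_toFinset]; exact ⟨hn, hny⟩
  have : n + 1 ≤ rho A x y := by
    unfold rho
    rw [dif_pos hf]
    exact Finset.le_sup (f := fun n => n + 1) hmem
  omega

/-- An injection of the initial segment into the least uncountable well ordered set. -/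
noncomputable def phi (a : I) : I → J := (I_inj a).choose

lemma phi_inj (a : I) : InjOn (phi a) (Iio a) := (I_inj a).choose_spec

lemma Ico_ne {x d : I} (h : x < d) : (Ico x d).Nonempty := ⟨x, le_refl _, h⟩

open Classical in
/-- The next step of the walk from `d` to `x`. -/
noncomputable def stp (x d : I) : I :=
  if h : x < d then Function.argminOn (phi d) (Ico x d) (Ico_ne h) else x

lemma stp_mem {x d : I} (h : x < d) : stp x d ∈ Ico x d := by
  unfold stp
  rw [dif_pos h]
  exact Function.argminOn_mem _ _ _

lemma stp_le {x d y : I} (h : x < d) (hy : y ∈ Ico x d) : phi d (stp x d) ≤ phi d y := by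
  unfold stp
  rw [dif_pos h]
  exact Function.argminOn_le (phi d) (Ico x d) hy

/-- Near a point of uncountable cofinality the next step is constant. -/
lemma stp_const {a d : I} (hP : P a) (h : a < d) :
    ∃ b, b < a ∧ ∀ x, b < x → x < a → stp x d = stp a d := by
  set c := stp a d with hc
  have hcm := stp_mem h
  have hcount : {y : I | y < a ∧ phi d y < phi d c}.Countable := by
    have hinj : InjOn (phi d) {y : I | y < a ∧ phi d y < phi d c} :=
      (phi_inj d).mono (fun y hy => hy.1.trans h)
    refine Set.countable_of_injective_of_countable_image hinj ?_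
    refine (J_count (phi d c)).mono ?_
    rintro _ ⟨y, hy, rfl⟩
    exact hy.2
  obtain ⟨b, hb, hbb⟩ := hP _ hcount (fun y hy => hy.1)
  refine ⟨b, hb, fun x hbx hxa => ?_⟩
  have hxd := hxa.trans h
  have hm := stp_mem hxd
  have h1 : phi d (stp x d) ≤ phi d c := stp_le hxd ⟨hxa.le.trans hcm.1, hcm.2⟩
  have h2 : a ≤ stp x d := by
    by_contra hlt
    push Not at hlt
    rcases h1.lt_or_eq with h3 | h3
    · exact absurd (hbb _ ⟨hlt, h3⟩) (not_le.2 (hbx.trans_le hm.1))
    · have := phi_inj d hm.2 hcm.2 h3
      rw [this] at hlt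
      exact absurd hcm.1 (not_le.2 hlt)
  have h3 : phi d c ≤ phi d (stp x d) := stp_le h ⟨h2, hm.2⟩
  exact phi_inj d hm.2 hcm.2 (le_antisymm h1 h3)

open Classical in
/-- The maximal value of `rho` along the walk. -/
noncomputable def w (A : I → Set ℕ) (x : I) : I → ℕ :=
  WellFounded.fix (wellFounded_lt (α := I))
    (fun d F => if h : x < d then max (rho A (stp x d) d) (F (stp x d) (stp_mem h).2) else 0)

lemma w_eq (A : I → Set ℕ) {x d : I} (h : x < d) :
    w A x d = max (rho A (stp x d) d) (w A x (stp x d)) := by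
  unfold w
  rw [WellFounded.fix_eq, dif_pos h]

lemma w_self (A : I → Set ℕ) (x : I) : w A x x = 0 := by
  unfold w
  rw [WellFounded.fix_eq, dif_neg (lt_irrefl x)]

lemma w_spec {A : I → Set ℕ} (hA : Chain A) {x : I} {n : ℕ} (hn : n ∈ A x) :
    ∀ d, x ≤ d → w A x d ≤ n → n ∈ A d := by
  intro d
  induction d using WellFoundedLT.induction with
  | _ d ih =>
    intro hxd hw
    rcases hxd.eq_or_lt with rfl | hlt
    · exact hn
    · rw [w_eq A hlt] at hw
      have hm := stp_mem hlt
      have h1 := ih _ hm.2 hm.1 ((le_max_right _ _).trans hw)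
      exact rho_spec hA hm.2 h1 ((le_max_left _ _).trans hw)

/-- Coherence of the walk near points of uncountable cofinality. -/
lemma w_coh (A : I → Set ℕ) {a : I} (hP : P a) :
    ∀ d, a ≤ d → ∃ b, b < a ∧ ∀ x, b < x → x < a → w A x d = max (w A x a) (w A a d) := by
  intro d
  induction d using WellFoundedLT.induction with
  | _ d ih =>
    intro had
    rcases had.eq_or_lt with rfl | hlt
    · obtain ⟨b, hb, -⟩ := hP ∅ countable_empty (empty_subset _)
      exact ⟨b, hb, fun x _ _ => by rw [w_self]; simp⟩
    · obtain ⟨b0, hb0, h0⟩ := stp_const hP hlt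
      have hm := stp_mem hlt
      obtain ⟨b1, hb1, h1⟩ := ih _ hm.2 hm.1
      refine ⟨max b0 b1, max_lt hb0 hb1, fun x hbx hxa => ?_⟩
      have hx0 := (le_max_left _ _).trans_lt hbx
      have hx1 := (le_max_right _ _).trans_lt hbx
      rw [w_eq A (hxa.trans hlt), w_eq A hlt, h0 x hx0 hxa, h1 x hx1 hxa]
      simp only [max_assoc, max_comm]

end Pool.Agent.FCE
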